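import Pool.Agent.J6H91.TZ.Stm

/-!
# The inequality of Lojasiewicz for polynomials on a compact semialgebraic set (module TZ-LOJ)
-/

set_option autoImplicit false

namespace Pool.Agent.J6H20.TZ

open MvPolynomial Filter Topology Pool.Agent.Helper334_SA

/-! ### Elimination of a vector of quantifiers -/

theorem exists_vec (ι : Type) [Finite ι] : ∀ (κ : Type) (p : (κ → ℝ) → (ι → ℝ) → Prop),
    SAP (fun w : κ ⊕ ι → ℝ => p (fun k => w (Sum.inl k)) (fun i => w (Sum.inr i))) →
    SAP (fun w : κ → ℝ => ∃ x : ι → ℝ, p w x) := by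
  refine Finite.induction_empty_option (P := fun ι => ∀ (κ : Type) (p : (κ → ℝ) → (ι → ℝ) → Prop),
    SAP (fun w : κ ⊕ ι → ℝ => p (fun k => w (Sum.inl k)) (fun i => w (Sum.inr i))) →
    SAP (fun w : κ → ℝ => ∃ x : ι → ℝ, p w x)) ?_ ?_ ?_ ι
  · intro α β e ih κ p hp
    have h := ih κ (fun w x => p w (fun b => x (e.symm b))) ?_
    · refine h.congr fun w => ⟨?_, ?_⟩
      · rintro ⟨x, hx⟩
        refine ⟨fun a => x (e a), ?_⟩
        simpa using hx
      · rintro ⟨x, hx⟩
        exact ⟨_, hx⟩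
    · exact hp.preimage (ι := κ ⊕ α)
        (φ := fun w o => Sum.elim (fun k => w (Sum.inl k)) (fun b => w (Sum.inr (e.symm b))) o)
        (fun o => by cases o <;> exact PF.coord _)
  · intro κ p hp
    have h := hp.preimage (ι := κ)
      (φ := fun w o => Sum.elim (fun k => w k) (fun b : PEmpty => b.elim) o)
      (fun o => by
        cases o with
        | inl k => exact PF.coord _
        | inr b => exact b.elim)
    refine h.congr fun w => ⟨?_, ?_⟩
    · rintro ⟨x, hx⟩
      have : x = fun b : PEmpty => b.elim := funext fun b => b.elim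
      rw [this] at hx
      exact hx
    · intro hx
      exact ⟨_, hx⟩
  · intro α _ ih κ p hp
    have h1 : SAP (fun u : Option (κ ⊕ α) → ℝ =>
        p (fun k => u (some (Sum.inl k))) (ext (u none) (fun i => u (some (Sum.inr i))))) := by
      exact hp.preimage (ι := Option (κ ⊕ α))
        (φ := fun u o => Sum.elim (fun k => u (some (Sum.inl k)))
          (fun b => ext (u none) (fun i => u (some (Sum.inr i))) b) o)
        (fun o => by
          rcases o with k | (_ | b)
          · exact PF.coord _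
          · exact PF.coord _
          · exact PF.coord _)
    have h2 := SAP.exists_real h1
    have h := ih κ (fun w x => ∃ t, p w (ext t x)) h2
    refine h.congr fun w => ⟨?_, ?_⟩
    · rintro ⟨x, hx⟩
      refine ⟨fun i => x (some i), x none, ?_⟩
      have : ext (x none) (fun i => x (some i)) = x := by
        funext o; cases o <;> rfl
      rw [this]
      exact hx
    · rintro ⟨x, t, hx⟩
      exact ⟨_, hx⟩

theorem forall_vec (ι : Type) [Finite ι] (κ : Type) (p : (κ → ℝ) → (ι → ℝ) → Prop)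
    (hp : SAP (fun w : κ ⊕ ι → ℝ => p (fun k => w (Sum.inl k)) (fun i => w (Sum.inr i)))) :
    SAP (fun w : κ → ℝ => ∀ x : ι → ℝ, p w x) := by
  have h := (exists_vec ι κ (fun w x => ¬ p w x) hp.not).not
  exact h.congr fun w => by push Not; rfl

/-! ### Roots of a polynomial near the positive half axis -/

theorem ev_univ (c : Polynomial ℝ) (hc : c ≠ 0) :
    ∃ n : ℕ, ∃ κ : ℝ, 0 < κ ∧ ∀ᶠ u in 𝓝[>] (0 : ℝ), κ * u ^ n ≤ |c.eval u| := by
  obtain ⟨q, hq, hq2⟩ := Polynomial.exists_eq_pow_rootMultiplicity_mul_and_not_dvd c hc 0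
  set n := Polynomial.rootMultiplicity 0 c
  have h0 : q.eval 0 ≠ 0 := by
    intro h
    exact hq2 (Polynomial.dvd_iff_isRoot.2 h)
  refine ⟨n, |q.eval 0| / 2, by positivity, ?_⟩
  have hcont : ContinuousAt (fun u => |q.eval u|) 0 := (q.continuous.abs).continuousAt
  have hev : ∀ᶠ u in 𝓝 (0 : ℝ), |q.eval 0| / 2 < |q.eval u| :=
    hcont.eventually_const_lt (by
      have : 0 < |q.eval 0| := abs_pos.2 h0
      linarith)
  filter_upwards [hev.filter_mono nhdsWithin_le_nhds, self_mem_nhdsWithin] with u hu hu0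
  have hu0' : (0 : ℝ) < u := hu0
  rw [hq]
  simp only [map_zero, sub_zero, Polynomial.eval_mul, Polynomial.eval_pow, Polynomial.eval_X,
    abs_mul, abs_pow, abs_of_pos hu0']
  rw [mul_comm]
  exact mul_le_mul_of_nonneg_left hu.le (by positivity)

theorem ev_unit (c : MvPolynomial Unit ℝ) (hc : c ≠ 0) :
    ∃ n : ℕ, ∃ κ : ℝ, 0 < κ ∧ ∀ᶠ u in 𝓝[>] (0 : ℝ), κ * u ^ n ≤ |aeval (fun _ : Unit => u) c| := by
  have key : ∀ u : ℝ, (aeval (fun _ : Unit => (Polynomial.X : Polynomial ℝ)) c).eval u =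
      aeval (fun _ : Unit => u) c := by
    intro u
    induction c using MvPolynomial.induction_on with
    | C a => simp
    | add p q hp hq => 
      by_cases h1 : p = 0
      · subst h1
        by_cases h2 : q = 0
        · subst h2; simp
        · simp [hq h2]
      · by_cases h2 : q = 0
        · subst h2; simp [hp h1]
        · simp [hp h1, hq h2]
    | mul_X p i hp =>
      by_cases h1 : p = 0
      · subst h1; simp
      · simp [hp h1]
  have hne : aeval (fun _ : Unit => (Polynomial.X : Polynomial ℝ)) c ≠ 0 := by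
    intro h
    apply hc
    apply MvPolynomial.funext
    intro v
    have hv : v = fun _ => v () := funext fun i => by cases i; rfl
    rw [hv, ← MvPolynomial.aeval_eq_eval]
    have := key (v ())
    rw [h] at this
    simpa using this.symm
  obtain ⟨n, κ, h1, h2⟩ := ev_univ _ hne
  refine ⟨n, κ, h1, h2.mono fun u hu => ?_⟩
  rw [key] at hu
  exact hu

theorem cont_spec (F : UP Unit) :
    Continuous (fun w : ℝ × ℝ => (spec (fun _ : Unit => w.1) F).eval w.2) := by
  simp only [spec_eval]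
  refine continuous_finsetSum _ fun i _ => Continuous.mul ?_ (continuous_snd.pow i)
  simp only [MvPolynomial.aeval_eq_eval]
  exact (MvPolynomial.continuous_eval (F.coeff i)).comp (continuous_pi fun _ => continuous_fst)

/-- the zeros of one polynomial -/
theorem root_bd (F : UP Unit) (V : ℝ) :
    ∃ n : ℕ, ∀ m, n ≤ m → ∀ᶠ u in 𝓝[>] (0 : ℝ), ∀ v : ℝ, 0 < v → v ≤ V →
      spec (fun _ : Unit => u) F ≠ 0 → (spec (fun _ : Unit => u) F).eval v = 0 → u ^ m ≤ v := by
  by_cases hF : F = 0
  · refine ⟨0, fun m _ => Eventually.of_forall fun u v _ _ h => ?_⟩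
    exact absurd (by simp [hF, spec]) h
  obtain ⟨H, hH, hH2⟩ := Polynomial.exists_eq_pow_rootMultiplicity_mul_and_not_dvd F hF 0
  have h0 : H.coeff 0 ≠ 0 := by
    intro h
    refine hH2 (Polynomial.dvd_iff_isRoot.2 ?_)
    rw [Polynomial.IsRoot.def, ← Polynomial.coeff_zero_eq_eval_zero, h]
  obtain ⟨n, κ, hκ, hev⟩ := ev_unit _ h0
  obtain ⟨B, hB⟩ := ((isCompact_Icc (a := (0 : ℝ)) (b := 1)).prod
    (isCompact_Icc (a := (0 : ℝ)) (b := V))).exists_bound_of_continuousOn
      (cont_spec H.divX).continuousOn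
  set B' : ℝ := max B 1 with hB'
  have hB'0 : 0 < B' := lt_of_lt_of_le one_pos (le_max_right _ _)
  refine ⟨n + 1, fun m hm => ?_⟩
  have hlt1 : ∀ᶠ u in 𝓝[>] (0 : ℝ), u < min 1 (κ / B') :=
    (eventually_lt_nhds (by positivity)).filter_mono nhdsWithin_le_nhds
  filter_upwards [hev, hlt1, self_mem_nhdsWithin] with u hu hu1 hu0 v hv hvV _ hroot
  have hu0' : (0 : ℝ) < u := hu0
  have hu1' : u < 1 := lt_of_lt_of_le hu1 (min_le_left _ _)
  have hu2' : u < κ / B' := lt_of_lt_of_le hu1 (min_le_right _ _)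
  have hroot2 : (spec (fun _ : Unit => u) H).eval v = 0 := by
    rw [hH] at hroot
    simp only [spec, map_zero, sub_zero, Polynomial.map_mul, Polynomial.map_pow, Polynomial.map_X,
      Polynomial.eval_mul, Polynomial.eval_pow, Polynomial.eval_X] at hroot
    rcases mul_eq_zero.1 hroot with h | h
    · exact absurd h (pow_ne_zero _ hv.ne')
    · exact h
  have hsplit : (spec (fun _ : Unit => u) H).eval v =
      v * (spec (fun _ : Unit => u) H.divX).eval v + aeval (fun _ : Unit => u) (H.coeff 0) := by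
    conv_lhs => rw [← Polynomial.divX_mul_X_add H]
    simp only [spec, Polynomial.map_add, Polynomial.map_mul, Polynomial.map_X, Polynomial.map_C,
      Polynomial.eval_add, Polynomial.eval_mul, Polynomial.eval_X, Polynomial.eval_C]
    rw [mul_comm]
    rfl
  rw [hroot2] at hsplit
  have habs : |aeval (fun _ : Unit => u) (H.coeff 0)| ≤ v * B' := by
    have : aeval (fun _ : Unit => u) (H.coeff 0) =
        - (v * (spec (fun _ : Unit => u) H.divX).eval v) := by linarith
    rw [this, abs_neg, abs_mul, abs_of_pos hv]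
    refine mul_le_mul_of_nonneg_left ?_ hv.le
    have := hB (u, v) ⟨⟨hu0'.le, hu1'.le⟩, ⟨hv.le, hvV⟩⟩
    exact le_trans this (le_max_left _ _)
  have h1 : κ * u ^ n ≤ v * B' := le_trans hu habs
  have h2 : u ^ m ≤ u ^ (n + 1) := pow_le_pow_of_le_one hu0'.le hu1'.le hm
  have h3 : u ^ (n + 1) ≤ κ / B' * u ^ n := by
    rw [pow_succ, mul_comm]
    exact mul_le_mul_of_nonneg_right hu2'.le (by positivity)
  have h4 : κ / B' * u ^ n ≤ v := by
    rw [div_mul_eq_mul_div, div_le_iff₀ hB'0]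
    exact h1
  linarith

/-- the zeros of a finite family -/
theorem root_bd_fin (S : Finset (UP Unit)) (V : ℝ) :
    ∃ n : ℕ, ∀ᶠ u in 𝓝[>] (0 : ℝ), ∀ F ∈ S, ∀ v : ℝ, 0 < v → v ≤ V →
      spec (fun _ : Unit => u) F ≠ 0 → (spec (fun _ : Unit => u) F).eval v = 0 → u ^ n ≤ v := by
  choose n hn using fun F => root_bd F V
  refine ⟨S.sup n, ?_⟩
  rw [Filter.eventually_all_finset]
  intro F hF
  exact hn F _ (Finset.le_sup hF)

/-! ### The inequality -/

theorem main (ι : Type) [Finite ι] (K : Set (ι → ℝ)) (f g : MvPolynomial ι ℝ) (hK : IsCompact K)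
    (hSA : SA K) (hfg : ∀ x ∈ K, eval x f = 0 → eval x g = 0) :
    ∃ (N : ℕ) (C : ℝ), ∀ x ∈ K, |eval x g| ^ N ≤ C * |eval x f| := by
  classical
  -- the functions
  have hcf : Continuous fun x => eval x f := MvPolynomial.continuous_eval f
  have hcg : Continuous fun x => eval x g := MvPolynomial.continuous_eval g
  have hcF : Continuous fun x => (eval x f) ^ 2 := hcf.pow 2
  have hcG : Continuous fun x => (eval x g) ^ 2 := hcg.pow 2
  -- the predicate
  let W : (Option Unit → ℝ) → Prop := fun w =>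
    (∃ x : ι → ℝ, x ∈ K ∧ (eval x g) ^ 2 = w (some ()) ∧ (eval x f) ^ 2 = w none) ∧
    (∀ y : ι → ℝ, y ∈ K → (eval y g) ^ 2 = w (some ()) → w none ≤ (eval y f) ^ 2)
  have hPFf : PF (fun w : Option Unit ⊕ ι → ℝ => (eval (fun i => w (Sum.inr i)) f) ^ 2) := by
    have h : PF (fun w : Option Unit ⊕ ι → ℝ => aeval (fun i => w (Sum.inr i)) f) :=
      (PF.aeval f).comp (φ := fun (w : Option Unit ⊕ ι → ℝ) i => w (Sum.inr i))
        (fun i => PF.coord _)
    simp only [MvPolynomial.aeval_eq_eval] at h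
    exact h.pow 2
  have hPFg : PF (fun w : Option Unit ⊕ ι → ℝ => (eval (fun i => w (Sum.inr i)) g) ^ 2) := by
    have h : PF (fun w : Option Unit ⊕ ι → ℝ => aeval (fun i => w (Sum.inr i)) g) :=
      (PF.aeval g).comp (φ := fun (w : Option Unit ⊕ ι → ℝ) i => w (Sum.inr i))
        (fun i => PF.coord _)
    simp only [MvPolynomial.aeval_eq_eval] at h
    exact h.pow 2
  have hKK : SAP (fun w : Option Unit ⊕ ι → ℝ => (fun i => w (Sum.inr i)) ∈ K) :=
    SA.preimage hSA (φ := fun (w : Option Unit ⊕ ι → ℝ) i => w (Sum.inr i)) (fun i => PF.coord _)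
  have hW : SAP W := by
    refine SAP.and ?_ ?_
    · exact exists_vec ι (Option Unit)
        (fun w x => x ∈ K ∧ (eval x g) ^ 2 = w (some ()) ∧ (eval x f) ^ 2 = w none)
        (hKK.and ((SAP.eq hPFg (PF.coord _)).and (SAP.eq hPFf (PF.coord _))))
    · exact forall_vec ι (Option Unit)
        (fun w y => y ∈ K → (eval y g) ^ 2 = w (some ()) → w none ≤ (eval y f) ^ 2)
        (hKK.imp ((SAP.eq hPFg (PF.coord _)).imp (SAP.le (PF.coord _) hPFf)))
  obtain ⟨Q, hQ⟩ := SA.iff hW
  choose Fq hFq using exists_univ (ι := Unit)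
  set S : Finset (UP Unit) := Q.image Fq with hS
  -- the minimum is a zero of one of the polynomials
  have hzero : ∀ u m : ℝ, W (ext m (fun _ => u)) → ∃ F ∈ S, spec (fun _ : Unit => u) F ≠ 0 ∧
      (spec (fun _ : Unit => u) F).eval m = 0 := by
    intro u m hWm
    by_contra hcon
    have hno : m ∉ zset S (fun _ : Unit => u) := fun h => hcon ((mem_zset _ _ _).1 h)
    have hopen : IsOpen ((zset S (fun _ : Unit => u) : Set ℝ)ᶜ) :=
      (Finset.finite_toSet _).isClosed.isOpen_compl
    obtain ⟨ε, hε, hball⟩ := Metric.isOpen_iff.1 hopen m (by simpa using hno)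
    have hmem : ∀ t ∈ Metric.ball m ε, W (ext t (fun _ => u)) := by
      intro t ht
      refine (hQ (ext m (fun _ => u)) (ext t (fun _ => u)) fun q hq => ?_).1 hWm
      rw [hFq q _ m, hFq q _ t]
      by_cases hz : spec (fun _ : Unit => u) (Fq q) = 0
      · simp [hz]
      · refine sign_const _ (I := Metric.ball m ε) ?_ (fun x hx hx0 => ?_)
          (Metric.mem_ball_self hε) ht
        · exact (convex_ball m ε).ordConnected
        · exact hball hx ((mem_zset _ _ _).2 ⟨Fq q, Finset.mem_image_of_mem _ hq, hz, hx0⟩)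
    have ht : m - ε / 2 ∈ Metric.ball m ε := by
      rw [Metric.mem_ball, Real.dist_eq]
      rw [show m - ε / 2 - m = -(ε / 2) by ring, abs_neg, abs_of_pos (by positivity)]
      linarith
    obtain ⟨⟨x, hxK, hxg, hxf⟩, _⟩ := hmem _ ht
    have h2 := hWm.2 x hxK hxg
    simp only [ext_none] at h2 hxf
    linarith
  -- bounds
  obtain ⟨V, hV⟩ := hK.exists_bound_of_continuousOn hcF.continuousOn
  obtain ⟨M, hM⟩ := hK.exists_bound_of_continuousOn hcG.continuousOn
  obtain ⟨n, hn⟩ := root_bd_fin S V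
  obtain ⟨δ, hδ, hδ2⟩ := (mem_nhdsGT_iff_exists_Ioo_subset).1 hn
  have hδ' : (0 : ℝ) < δ := hδ
  -- small values
  have hsmall : ∀ x ∈ K, 0 < (eval x g) ^ 2 → (eval x g) ^ 2 < δ →
      ((eval x g) ^ 2) ^ n ≤ (eval x f) ^ 2 := by
    intro x hxK hx0 hxδ
    set u := (eval x g) ^ 2 with hu
    have hKu : IsCompact (K ∩ {y | (eval y g) ^ 2 = u}) :=
      hK.inter_right (isClosed_eq hcG continuous_const)
    obtain ⟨y, ⟨hyK, hyu⟩, hymin⟩ := hKu.exists_isMinOn ⟨x, hxK, rfl⟩ hcF.continuousOn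
    have hyu' : (eval y g) ^ 2 = u := hyu
    have hWy : W (ext ((eval y f) ^ 2) (fun _ => u)) :=
      ⟨⟨y, hyK, hyu', rfl⟩, fun z hzK hzu => hymin ⟨hzK, hzu⟩⟩
    obtain ⟨F, hF, hF1, hF2⟩ := hzero _ _ hWy
    have hypos : 0 < (eval y f) ^ 2 := by
      have : eval y f ≠ 0 := by
        intro h
        have := hfg y hyK h
        rw [this] at hyu'
        simp at hyu'
        rw [← hyu'] at hx0
        exact lt_irrefl _ hx0
      positivity
    have hyV : (eval y f) ^ 2 ≤ V := le_trans (le_abs_self _) (hV y hyK)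
    have h1 := hδ2 ⟨hx0, hxδ⟩ F hF _ hypos hyV hF1 hF2
    exact le_trans h1 (hymin ⟨hxK, rfl⟩)
  -- large values
  have hlarge : ∃ C : ℝ, 0 ≤ C ∧ ∀ x ∈ K, δ ≤ (eval x g) ^ 2 →
      ((eval x g) ^ 2) ^ (n + 1) ≤ C * (eval x f) ^ 2 := by
    have hKδ : IsCompact (K ∩ {y | δ ≤ (eval y g) ^ 2}) :=
      hK.inter_right (isClosed_le continuous_const hcG)
    rcases (K ∩ {y | δ ≤ (eval y g) ^ 2}).eq_empty_or_nonempty with he | hne
    · refine ⟨0, le_rfl, fun x hxK hx => ?_⟩
      have : x ∈ K ∩ {y | δ ≤ (eval y g) ^ 2} := ⟨hxK, hx⟩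
      rw [he] at this
      exact absurd this (Set.notMem_empty _)
    · obtain ⟨y, ⟨hyK, hyδ⟩, hymin⟩ := hKδ.exists_isMinOn hne hcF.continuousOn
      have hyδ' : δ ≤ (eval y g) ^ 2 := hyδ
      have hypos : 0 < (eval y f) ^ 2 := by
        have : eval y f ≠ 0 := by
          intro h
          have := hfg y hyK h
          rw [this] at hyδ'
          simp at hyδ'
          linarith
        positivity
      have hM0 : 0 ≤ M := le_trans (norm_nonneg _) (hM y hyK)
      refine ⟨M ^ (n + 1) / (eval y f) ^ 2, by positivity, fun x hxK hx => ?_⟩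
      have h1 : (eval y f) ^ 2 ≤ (eval x f) ^ 2 := hymin ⟨hxK, hx⟩
      have h2 : (eval x g) ^ 2 ≤ M := le_trans (le_abs_self _) (hM x hxK)
      have h3 : ((eval x g) ^ 2) ^ (n + 1) ≤ M ^ (n + 1) :=
        pow_le_pow_left₀ (by positivity) h2 _
      rw [div_mul_eq_mul_div, le_div_iff₀ hypos]
      exact mul_le_mul h3 h1 (by positivity) (by positivity)
  obtain ⟨C₀, hC₀, hlarge⟩ := hlarge
  -- all values
  have hall : ∀ x ∈ K, ((eval x g) ^ 2) ^ (n + 1) ≤ (C₀ + δ) * (eval x f) ^ 2 := by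
    intro x hxK
    rcases lt_or_ge ((eval x g) ^ 2) δ with h | h
    · rcases (sq_nonneg (eval x g)).eq_or_lt with h0 | h0
      · rw [← h0]
        simp only [ne_eq, Nat.add_eq_zero_iff, one_ne_zero, and_false, not_false_eq_true, zero_pow]
        positivity
      · have h1 := hsmall x hxK h0 h
        have h2 : ((eval x g) ^ 2) ^ (n + 1) ≤ δ * (eval x f) ^ 2 := by
          rw [pow_succ, mul_comm]
          exact mul_le_mul h.le h1 (by positivity) hδ'.le
        have h3 : 0 ≤ C₀ * (eval x f) ^ 2 := by positivity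
        linarith
    · have h1 := hlarge x hxK h
      have h3 : 0 ≤ δ * (eval x f) ^ 2 := by positivity
      linarith
  refine ⟨n + 1, C₀ + δ + 1, fun x hxK => ?_⟩
  have h1 := hall x hxK
  have hA : 0 ≤ C₀ + δ := by positivity
  have hsq : (|eval x g| ^ (n + 1)) ^ 2 ≤ ((C₀ + δ + 1) * |eval x f|) ^ 2 := by
    calc (|eval x g| ^ (n + 1)) ^ 2 = ((eval x g) ^ 2) ^ (n + 1) := by
          rw [← pow_mul, mul_comm, pow_mul, sq_abs]
      _ ≤ (C₀ + δ) * (eval x f) ^ 2 := h1
      _ ≤ (C₀ + δ + 1) ^ 2 * (eval x f) ^ 2 := by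
          refine mul_le_mul_of_nonneg_right ?_ (by positivity)
          nlinarith
      _ = ((C₀ + δ + 1) * |eval x f|) ^ 2 := by rw [mul_pow, sq_abs]
  exact le_of_sq_le_sq hsq (by positivity)


/-- module TZ-LOJ -/
theorem loj : Pool.Agent.J6H91.TZ.S_LOJ :=
  fun ι _ K f g hK hSA hfg => main ι K f g hK hSA hfg

end Pool.Agent.J6H20.TZ
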